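import Mathlib
import Pool.Agent.Helper87.BW.High
import Pool.Agent.Helper87.BW.Low
import Pool.Agent.Helper87.BW.Fin

set_option autoImplicit false

/-!
# The Bartels–Welsh edge-deletion ratio conjecture: all graphs of large order
-/

namespace Pool.Agent.Results.MP_36ff57_co.LargeOrder

/-- The inequality of Q1 for the edge `e` of `G`: with `n` the order of `G`,
`χ(G;n-1)/χ(G;n) ≤ χ(G∖e;n-1)/χ(G∖e;n)`. -/
def GoodEdge {V : Type} [Fintype V] (G : SimpleGraph V) (e : Sym2 V) : Prop :=
  (Nat.card (G.Coloring (Fin (Fintype.card V - 1))) : ℝ) /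
      (Nat.card (G.Coloring (Fin (Fintype.card V))) : ℝ) ≤
    (Nat.card ((G.deleteEdges {e}).Coloring (Fin (Fintype.card V - 1))) : ℝ) /
      (Nat.card ((G.deleteEdges {e}).Coloring (Fin (Fintype.card V))) : ℝ)

/-- Q1 holds for all graphs of sufficiently large order. -/
theorem result : ∃ N : ℕ, ∀ (V : Type) [Fintype V] (G : SimpleGraph V), N ≤ Fintype.card V →
    G.edgeSet.Nonempty → ∃ e ∈ G.edgeSet, GoodEdge G e :=
  Helper87.BWL.final_of Helper87.BWL.high_case Helper87.BWL.low_case

end Pool.Agent.Results.MP_36ff57_co.LargeOrder
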