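import Mathlib
import Pool.Agent.Helper53.ChromCor

set_option autoImplicit false

/-!
# The Bartels–Welsh edge-deletion ratio conjecture: edges at vertices of low degree
-/

namespace Pool.Agent.Results.MP_36ff57_co.LowDegreeVertex

/-- The inequality of Q1 for the edge `e` of `G`: with `n` the order of `G`,
`χ(G;n-1)/χ(G;n) ≤ χ(G∖e;n-1)/χ(G∖e;n)`. -/
def GoodEdge {V : Type} [Fintype V] (G : SimpleGraph V) (e : Sym2 V) : Prop :=
  (Nat.card (G.Coloring (Fin (Fintype.card V - 1))) : ℝ) /
      (Nat.card (G.Coloring (Fin (Fintype.card V))) : ℝ) ≤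
    (Nat.card ((G.deleteEdges {e}).Coloring (Fin (Fintype.card V - 1))) : ℝ) /
      (Nat.card ((G.deleteEdges {e}).Coloring (Fin (Fintype.card V))) : ℝ)

open Helper53.BW in
lemma card_nb {V : Type} [Fintype V] (G : SimpleGraph V) (w : V) :
    (nb G w).card = (G.neighborSet w).ncard := by
  rw [← Set.ncard_coe_finset]
  congr 1
  ext y
  simp [mem_nb]

open Classical in
lemma card_filter {V : Type} [Fintype V] (G : SimpleGraph V) (Z : Finset V) (w : V) :
    (Z.filter (fun y => G.Adj w y)).card = (G.neighborSet w ∩ (Z : Set V)).ncard := by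
  rw [← Set.ncard_coe_finset]
  congr 1
  ext y
  simp [and_comm]

/-- If `Z` is a set of vertices each of which has at most `|Z| / 10` neighbours in `Z`, and `u` is
a vertex of degree at most `|Z| ^ 3 / (50 n ^ 2)`, then every edge at `u` satisfies the
inequality of Q1. -/
theorem result (V : Type) [Fintype V] (G : SimpleGraph V) (Z : Set V)
    (hZ : ∀ z ∈ Z, 10 * (G.neighborSet z ∩ Z).ncard ≤ Z.ncard) (u v : V) (huv : G.Adj u v)
    (h : 50 * (G.neighborSet u).ncard * Fintype.card V ^ 2 ≤ Z.ncard ^ 3) :
    GoodEdge G s(u, v) := by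
  classical
  have e : ((Z.toFinset : Finset V) : Set V) = Z := by simp
  have ec : Z.toFinset.card = Z.ncard := by rw [← Set.ncard_coe_finset, e]
  refine Helper53.BW.good_local (G := G) Z.toFinset ?_ u v huv ?_
  · intro z hz
    rw [card_filter, e, ec]
    exact hZ z (by simpa using hz)
  · rw [card_nb, ec]; exact h

end Pool.Agent.Results.MP_36ff57_co.LowDegreeVertex
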