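import Mathlib
import Pool.Agent.Helper53.ChromCor

set_option autoImplicit false

/-!
# The Bartels–Welsh edge-deletion ratio conjecture: graphs of small maximum degree
-/

namespace Pool.Agent.Results.MP_36ff57_co.SmallMaxDegree

/-- The inequality of Q1 for the edge `e` of `G`: with `n` the order of `G`,
`χ(G;n-1)/χ(G;n) ≤ χ(G∖e;n-1)/χ(G∖e;n)`. -/
def GoodEdge {V : Type} [Fintype V] (G : SimpleGraph V) (e : Sym2 V) : Prop :=
  (Nat.card (G.Coloring (Fin (Fintype.card V - 1))) : ℝ) /
      (Nat.card (G.Coloring (Fin (Fintype.card V))) : ℝ) ≤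
    (Nat.card ((G.deleteEdges {e}).Coloring (Fin (Fintype.card V - 1))) : ℝ) /
      (Nat.card ((G.deleteEdges {e}).Coloring (Fin (Fintype.card V))) : ℝ)

open Helper53.BW in
lemma card_nb {V : Type} [Fintype V] (G : SimpleGraph V) (w : V) :
    (nb G w).card = (G.neighborSet w).ncard := by
  rw [← Set.ncard_coe_finset]
  congr 1
  ext y
  simp [mem_nb]

/-- If every degree is at most `n / 9`, then every edge satisfies the inequality of Q1. -/
theorem result (V : Type) [Fintype V] (G : SimpleGraph V)
    (hd : ∀ w : V, 9 * (G.neighborSet w).ncard ≤ Fintype.card V) :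
    ∀ e ∈ G.edgeSet, GoodEdge G e := by
  classical
  intro e he
  induction e with
  | _ u v =>
    exact Helper53.BW.good_maxdeg (G := G) (fun w => by rw [card_nb]; exact hd w) u v
      (by simpa using he)

end Pool.Agent.Results.MP_36ff57_co.SmallMaxDegree
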