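import Mathlib
import Pool.Agent.Helper53.ChromCor

set_option autoImplicit false

/-!
# The Bartels–Welsh edge-deletion ratio conjecture: sparse graphs
-/

namespace Pool.Agent.Results.MP_36ff57_co.SparseGraphs

/-- The inequality of Q1 for the edge `e` of `G`: with `n` the order of `G`,
`χ(G;n-1)/χ(G;n) ≤ χ(G∖e;n-1)/χ(G∖e;n)`. -/
def GoodEdge {V : Type} [Fintype V] (G : SimpleGraph V) (e : Sym2 V) : Prop :=
  (Nat.card (G.Coloring (Fin (Fintype.card V - 1))) : ℝ) /
      (Nat.card (G.Coloring (Fin (Fintype.card V))) : ℝ) ≤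
    (Nat.card ((G.deleteEdges {e}).Coloring (Fin (Fintype.card V - 1))) : ℝ) /
      (Nat.card ((G.deleteEdges {e}).Coloring (Fin (Fintype.card V))) : ℝ)

open Helper53.BW in
lemma card_nb {V : Type} [Fintype V] (G : SimpleGraph V) (w : V) :
    (nb G w).card = (G.neighborSet w).ncard := by
  rw [← Set.ncard_coe_finset]
  congr 1
  ext y
  simp [mem_nb]

open Classical Helper53.BW in
lemma sum_nb {V : Type} [Fintype V] (G : SimpleGraph V) :
    ∑ w : V, (nb G w).card = 2 * G.edgeSet.ncard := by
  have h := G.sum_degrees_eq_twice_card_edges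
  rw [← SimpleGraph.coe_edgeFinset, Set.ncard_coe_finset, ← h]
  refine Finset.sum_congr rfl (fun w _ => ?_)
  rw [← SimpleGraph.card_neighborFinset_eq_degree]
  congr 1
  ext y
  simp [mem_nb]

/-- Q1 holds for every graph with at most `n ^ 2 / 3200` edges, and every edge at a vertex of
smallest positive degree will do. -/
theorem result (V : Type) [Fintype V] (G : SimpleGraph V)
    (hs : 3200 * G.edgeSet.ncard ≤ Fintype.card V ^ 2) :
    (G.edgeSet.Nonempty → ∃ e ∈ G.edgeSet, GoodEdge G e) ∧
      ∀ u v : V, G.Adj u v →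
        (∀ w : V, (G.neighborSet w).Nonempty → (G.neighborSet u).ncard ≤ (G.neighborSet w).ncard) →
        GoodEdge G s(u, v) := by
  classical
  have key : ∀ u v : V, G.Adj u v →
      (∀ w : V, (G.neighborSet w).Nonempty → (G.neighborSet u).ncard ≤ (G.neighborSet w).ncard) →
      GoodEdge G s(u, v) := by
    intro u v huv hmin
    refine Helper53.BW.good_sparse (G := G) G.edgeSet.ncard (sum_nb G) hs u v huv ?_
    intro w hw
    rw [card_nb, card_nb]
    apply hmin
    rw [card_nb] at hw
    exact Set.nonempty_of_ncard_ne_zero hw.ne'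
  refine ⟨?_, key⟩
  rintro ⟨e, he⟩
  induction e with
  | _ x y =>
    have hxy : G.Adj x y := by simpa using he
    obtain ⟨u, hu, hmin⟩ := Finset.exists_min_image
      (Finset.univ.filter (fun w : V => (G.neighborSet w).Nonempty))
      (fun w => (G.neighborSet w).ncard)
      ⟨x, by simp only [Finset.mem_filter, Finset.mem_univ, true_and]; exact ⟨y, hxy⟩⟩
    obtain ⟨v, hv⟩ := (Finset.mem_filter.1 hu).2
    refine ⟨s(u,v), by simpa using hv, key u v hv (fun w hw => hmin w (Finset.mem_filter.2 ⟨Finset.mem_univ _, hw⟩))⟩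

end Pool.Agent.Results.MP_36ff57_co.SparseGraphs
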